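import Pool.Agent.Y916.Om.AH
import Pool.Agent.R351.GD.PB

/-!
# Windows for arbitrary families, with a polynomially bounded exponent
-/

set_option autoImplicit false

open Module
open scoped Pointwise

namespace Pool.Agent.R351.GD

open Pool.Agent.Y916.Hil Pool.Agent.Y916.Om

/-- **Windows for arbitrary families: one exceptional set for all number fields of bounded degree** -/
theorem awh_exp (Ev : ℕ → ℕ → ℕ) (hEv : ∀ N, PB (Ev N)) {σ : Type} [Fintype σ] [DecidableEq σ] (r τ A B : ℕ) :
    ∃ E : ℕ → ℕ, PB E ∧ ∀ (δ : ℕ) (Ω : Type) [Field Ω] [CharZero Ω] (I : Type) (size : I → ℕ) (val : I → ℕ → σ → Ω),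
    Inp Ev size val → ∀ (H : ℕ) (t : I), (H + 2) ^ E δ ≤ size t →
    ∀ (υ : Type) [Fintype υ] (w : υ → Ω) (T : Finset υ), T.card = τ → Dom A B w T →
    ∃ S : Finset ℕ, S.card ≤ τ ∧ ∀ g : Fin r → ℕ, Function.Injective g → (∀ i, 1 ≤ g i ∧ g i ≤ H ∧ g i ∉ S) →
      ∀ K : IntermediateField ℚ Ω, FiniteDimensional ℚ K → finrank ℚ K ≤ δ →
      ∀ x : Fin r × σ → Ω, (∀ p, ∃ a : K, a ≠ 0 ∧
        x p - a * val t (g p.1) p.2 ∈ Submodule.span K (insert 1 (Set.range w))) →
      ∀ P : MvPolynomial (υ ⊕ Fin r × σ) K, P.totalDegree ≤ δ → MvPolynomial.aeval (Sum.elim w x) P = 0 →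
      MvPolynomial.aeval (Sum.elim (fun j => MvPolynomial.C (w j)) MvPolynomial.X) P
        = (0 : MvPolynomial (Fin r × σ) Ω) := by
  classical
  set q : ℕ := τ + 1 with hq
  set r' : ℕ := r * Fintype.card σ with hr'
  set N0 : ℕ := q * r' with hN0
  set Dg : ℕ → ℕ → ℕ := fun N δ => (N * Fintype.card σ) *
    ((δ + 1) ^ q * (δ ^ (τ + 1) * A) * ((B + 1) * (2 * δ + 1) ^ (τ + 1) * (N * Fintype.card σ)) ^
      (N * Fintype.card σ - 1)) with hDg'
  have hDgp : ∀ N, PB (Dg N) := by
    intro N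
    have h1 : PB fun δ : ℕ => δ + 1 := PB.id.add (PB.const 1)
    have h2 : PB fun δ : ℕ => 2 * δ + 1 := ((PB.const 2).mul PB.id).add (PB.const 1)
    exact (PB.const (N * Fintype.card σ)).mul (((h1.pow q).mul ((PB.id.pow (τ + 1)).mul (PB.const A))).mul
      ((((PB.const (B + 1)).mul (h2.pow (τ + 1))).mul (PB.const (N * Fintype.card σ))).pow
        (N * Fintype.card σ - 1)))
  refine ⟨fun δ => ∑ N ∈ Finset.range (N0 + 1), Ev N (Dg N δ),
    PB.sum _ fun N _ => (hEv N).comp (hDgp N), ?_⟩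
  intro δ
  set d : ℕ := δ with hd
  set Dg : ℕ → ℕ := fun N => (N * Fintype.card σ) *
    ((d + 1) ^ q * (δ ^ (τ + 1) * A) * ((B + 1) * (2 * δ + 1) ^ (τ + 1) * (N * Fintype.card σ)) ^
      (N * Fintype.card σ - 1)) with hDg
  intro Ω _ _ I size val hval H t ht υ _ w T hTc hAB
  by_contra hcon
  push Not at hcon
  set y : ℕ × σ → Ω := fun p => val t p.1 p.2 with hy
  set Co : {K : IntermediateField ℚ Ω // FiniteDimensional ℚ K ∧ finrank ℚ K ≤ d} → Set Ω := fun K =>
    ((Submodule.span K.1 (insert (1 : Ω) (Set.range w)) ^ δ : Submodule K.1 Ω) : Set Ω) with hCo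
  obtain ⟨S, Bs, J, hS, hSB, hBr, hIr, hBa, hrk⟩ := greedyU (y := y) (Co := Co)
    (fun K => Submodule.zero_mem _) (δ := δ) q r' (fun p => 1 ≤ p.1 ∧ p.1 ≤ H) (by
      intro S hS
      obtain ⟨g, hinj, hg, K, hKf, hKd, x, hx, P, hP, hP0, hPne⟩ := hcon (S.image Prod.fst)
        (Finset.card_image_le.trans (by omega))
      choose a ha hxa using hx
      set β : Fin r × σ → ℕ × σ := fun p => (g p.1, p.2) with hβ
      have hβinj : Function.Injective β := by
        rintro ⟨i, s⟩ ⟨i', s'⟩ h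
        simp only [hβ, Prod.mk.injEq] at h
        rw [hinj h.1, h.2]
      refine ⟨Finset.univ.image β, ?_, ?_, ?_, ⟨K, hKf, hKd⟩, Qh K w β a (fun p => x p - a p * y (β p)) P, ?_,
        Qh_ok K w β a _ P hP hxa, ?_⟩
      · refine Finset.card_image_le.trans ?_
        rw [Finset.card_univ, Fintype.card_prod, Fintype.card_fin]
      · intro b hb
        obtain ⟨i, -, rfl⟩ := Finset.mem_image.1 hb
        exact ⟨(hg i.1).1, (hg i.1).2.1⟩
      · rw [Finset.disjoint_left]
        intro b hb hbS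
        obtain ⟨i, -, rfl⟩ := Finset.mem_image.1 hb
        exact (hg i.1).2.2 (Finset.mem_image_of_mem Prod.fst hbS)
      · rw [Qh_eq]
        intro h0
        have h1 := MvPolynomial.rename_injective β hβinj (h0.trans (map_zero _).symm)
        exact hPne (shift_injh K a _ ha (h1.trans (map_zero _).symm))
      · rw [aeval_Qh]
        have : (fun i => (a i : Ω) * y (β i) + (x i - a i * y (β i))) = x := by
          funext i
          ring
        rw [this]
        exact hP0)
  obtain ⟨L, hLf, hLd, hL⟩ := compositum J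
  have hLd' : finrank ℚ L ≤ (d + 1) ^ q := by
    refine hLd.trans ((Nat.pow_le_pow_left (Nat.le_succ d) _).trans ?_)
    exact Nat.pow_le_pow_right (Nat.succ_pos d) hIr
  set V : Submodule L Ω := Submodule.span L (insert (1 : Ω) (Set.range w)) with hV
  set G : Finset ℕ := Bs.image Prod.fst with hG
  set N : ℕ := G.card with hN
  have hNN0 : N ≤ N0 := Finset.card_image_le.trans hBr
  set eG : Fin N ≃ G := G.equivFin.symm with heG
  set g : Fin N → ℕ := fun l => (eG l : ℕ) with hg
  have hginj : Function.Injective g := fun l l' h => eG.injective (Subtype.ext h)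
  have hgb : ∀ l, 1 ≤ g l ∧ g l ≤ H := by
    intro l
    obtain ⟨b, hb, hbl⟩ := Finset.mem_image.1 (eG l).2
    have := hBa b hb
    rw [hbl] at this
    exact this
  set Θ : Finset (ℕ × σ) := G ×ˢ Finset.univ with hΘ
  have hBΘ : Bs ⊆ Θ := by
    intro b hb
    rw [hΘ, Finset.mem_product]
    exact ⟨Finset.mem_image_of_mem _ hb, Finset.mem_univ _⟩
  have hcard : Θ.card = N * Fintype.card σ := by
    rw [hΘ, Finset.card_product, Finset.card_univ]
  set n : ℕ := N * Fintype.card σ with hn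
  have en : Fin n ≃ Fin N × σ := (Fintype.equivFinOfCardEq (by rw [Fintype.card_prod, Fintype.card_fin])).symm
  have hVfg : V.FG := Submodule.fg_span ((Set.finite_range w).insert 1)
  have hV1 : (1 : Ω) ∈ V := Submodule.subset_span (Set.mem_insert _ _)
  have hub := hrk L V hVfg hV1 (fun K hK c hc => span_pow_field (hL K hK) hc) Θ hBΘ
  refine contra' (A := A) (B := B) (δ := δ) L hLd' w T ?_ y Θ S (hSB.trans hBΘ) (by rw [hS, hTc]) hcard
    (fun s : Fin n => y (g (en s).1, (en s).2)) ?_ (by rw [hTc]; exact hub) ?_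
  · intro W h1 h2 h3 Δ
    rw [Finset.coe_univ, Set.image_univ]
    exact hAB L W h1 h2 h3 Δ
  · intro s
    refine Submodule.mem_sup_right (Submodule.subset_span ⟨(g (en s).1, (en s).2), ?_, rfl⟩)
    rw [Finset.mem_coe, hΘ, Finset.mem_product]
    exact ⟨(eG (en s).1).2, Finset.mem_univ _⟩
  · intro P hP hP0
    rw [hTc] at hP
    have hbig : (H + 2) ^ Ev N (Dg N) ≤ size t := by
      refine le_trans (Nat.pow_le_pow_right (by omega) ?_) ht
      exact Finset.single_le_sum (f := fun N => Ev N (Dg N)) (fun i _ => Nat.zero_le _)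
        (Finset.mem_range.2 (by omega))
    have h1 := hval N _ H t hbig g hginj hgb (MvPolynomial.rename en P)
      ((MvPolynomial.totalDegree_rename_le _ _).trans hP) (by
        rw [MvPolynomial.aeval_rename]
        exact hP0)
    exact MvPolynomial.rename_injective en en.injective (h1.trans (map_zero _).symm)

end Pool.Agent.R351.GD
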