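import Pool.Agent.R351.GD.P.Int
import Pool.Agent.R351.GD.P.Cnt

/-!
# Tuples of integers and their `p`-adic logarithms: growing degrees
-/

set_option autoImplicit false

open Module

namespace Pool.Agent.R351.GD

open Pool.Agent.Y916.Om Pool.Agent.Y921.PW

theorem iw_pow {p : ℕ} [Fact p.Prime] {A : Type} [NormedField A] [NormedAlgebra ℚ_[p] A] {L : A → A}
    (hL : Iw p L) (a n : ℕ) (hn : n ≠ 0) : L ((p ^ a * n : ℕ) : A) = L (n : A) := by
  induction a with
  | zero => simp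
  | succ a ih =>
    have h1 : ((p ^ (a + 1) * n : ℕ) : A) = ((p : ℕ) : A) * ((p ^ a * n : ℕ) : A) := by
      push_cast
      ring
    have hp : p ≠ 0 := (Fact.out : p.Prime).ne_zero
    rw [h1, hL.mul _ _ (natCast_ne p hp) (natCast_ne p (Nat.mul_ne_zero (pow_ne_zero _ hp) hn)), hL.prime, zero_add, ih]

open Classical in
/-- the number of exceptional integers, multiples of `p` included -/
theorem pcount (m q : ℕ) : ∃ E : ℕ → ℕ, PB E ∧
    ∀ (δ p : ℕ) [Fact p.Prime] (A : Type) [NormedField A] [NormedAlgebra ℚ_[p] A] [CharZero A] (L : A → A), Iw p L →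
    ∀ (w : Fin q → A) (T : ℕ), 1 ≤ T →
    (((Finset.Icc 1 T).filter fun n : ℕ => BadW δ δ (m * δ) w (fun _ : Unit => L (n : A))).card : ℝ) ≤
      16 * (q + 2) * p * (T : ℝ) ^ (1 - 1 / ((E δ : ℝ) + 2)) := by
  obtain ⟨E, hEp, hE⟩ := pwin_exp m q
  refine ⟨E, hEp, fun δ p _ A _ _ _ L hL w T hT => ?_⟩
  have hp2 : 2 ≤ p := (Fact.out : p.Prime).two_le
  have hp0 : p ≠ 0 := (Fact.out : p.Prime).ne_zero
  set B : ℕ → Prop := fun n => BadW δ δ (m * δ) w (fun _ : Unit => L (n : A)) with hB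
  set c : ℝ := 1 / ((E δ : ℝ) + 2) with hc
  have hE0 : (0 : ℝ) ≤ E δ := Nat.cast_nonneg _
  have hc0 : 0 < c := by positivity
  have hc1 : c ≤ 1 / 2 := one_div_le_one_div_of_le (by norm_num) (by linarith)
  have hT1 : (1 : ℝ) ≤ T := by exact_mod_cast hT
  have hT0 : (0 : ℝ) < T := by linarith
  set F : ℕ → Finset ℕ := fun T' => (Finset.Icc 1 T').filter fun n => ¬ p ∣ n ∧ B n with hF
  have hcls : ∀ T' : ℕ, 1 ≤ T' → ((F T').card : ℝ) ≤ 4 * (q + 2) * p * (T' : ℝ) ^ (1 - c) := by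
    intro T' hT'
    have h1 := count_cls (q + 1) (E δ) p hp2 B (fun H e v h1 h2 h3 S hS =>
      hE δ p A L hL w H e v h1 h2 h3 S hS) T' hT'
    have h2 : ((4 : ℝ) * (((q + 1 : ℕ) : ℝ) + 1)) = 4 * (q + 2) := by push_cast; ring
    rw [h2] at h1
    exact h1
  have hsub : ((Finset.Icc 1 T).filter B) ⊆ (Finset.range (T + 1)).biUnion fun a =>
      (F (T / p ^ a)).image fun n => p ^ a * n := by
    intro n hn
    obtain ⟨hn1, hn2⟩ := Finset.mem_filter.1 hn
    obtain ⟨hn3, hn4⟩ := Finset.mem_Icc.1 hn1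
    have hn0 : n ≠ 0 := by omega
    set a := padicValNat p n with ha
    obtain ⟨n', hn'⟩ : p ^ a ∣ n := pow_padicValNat_dvd
    have hn'0 : n' ≠ 0 := by
      rintro rfl
      rw [mul_zero] at hn'
      exact hn0 hn'
    have hpn' : ¬ p ∣ n' := by
      rintro ⟨d, hd⟩
      have h1 : p ^ (a + 1) ∣ n := ⟨d, by rw [hn', hd]; ring⟩
      exact pow_succ_padicValNat_not_dvd hn0 h1
    have ha1 : a < T + 1 := by
      have h1 : p ^ a ≤ n := Nat.le_of_dvd (by omega) pow_padicValNat_dvd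
      have h2 : a < p ^ a := Nat.lt_pow_self hp2
      omega
    refine Finset.mem_biUnion.2 ⟨a, Finset.mem_range.2 ha1, Finset.mem_image.2 ⟨n', ?_, hn'.symm⟩⟩
    refine Finset.mem_filter.2 ⟨Finset.mem_Icc.2 ⟨by omega, ?_⟩, hpn', ?_⟩
    · rw [Nat.le_div_iff_mul_le (pow_pos (by omega) a), mul_comm, ← hn']
      exact hn4
    · have h1 := iw_pow hL a n' hn'0
      rw [← hn'] at h1
      have h2 : B n := hn2
      rw [hB] at h2 ⊢
      simp only [h1] at h2
      exact h2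
  have hterm : ∀ a ∈ Finset.range (T + 1), (((F (T / p ^ a)).image fun n => p ^ a * n).card : ℝ) ≤
      4 * (q + 2) * p * (T : ℝ) ^ (1 - c) * (3 / 4) ^ a := by
    intro a _
    have h0 : (((F (T / p ^ a)).image fun n => p ^ a * n).card : ℝ) ≤ ((F (T / p ^ a)).card : ℝ) := by
      exact_mod_cast Finset.card_image_le
    refine h0.trans ?_
    rcases Nat.eq_zero_or_pos (T / p ^ a) with h1 | h1
    · have h2 : F (T / p ^ a) = ∅ := by
        rw [h1, hF]
        simp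
      rw [h2, Finset.card_empty, Nat.cast_zero]
      positivity
    · refine (hcls _ h1).trans ?_
      have h2 : ((T / p ^ a : ℕ) : ℝ) ≤ T * (1 / 2) ^ a := by
        refine Nat.cast_div_le.trans ?_
        push_cast
        rw [div_eq_mul_inv]
        refine mul_le_mul_of_nonneg_left ?_ hT0.le
        rw [one_div, inv_pow]
        apply inv_anti₀ (by positivity)
        exact pow_le_pow_left₀ (by norm_num) (by exact_mod_cast hp2) _
      have h3 : (((T / p ^ a : ℕ) : ℝ)) ^ (1 - c) ≤ (T : ℝ) ^ (1 - c) * (3 / 4) ^ a := by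
        refine (Real.rpow_le_rpow (Nat.cast_nonneg _) h2 (by linarith)).trans ?_
        rw [Real.mul_rpow hT0.le (by positivity)]
        refine mul_le_mul_of_nonneg_left ?_ (by positivity)
        have h4 : ((1 / 2 : ℝ) ^ a) ^ (1 - c) ≤ ((1 / 2 : ℝ) ^ a) ^ (1 / 2 : ℝ) :=
          Real.rpow_le_rpow_of_exponent_ge (by positivity) (pow_le_one₀ (by norm_num) (by norm_num)) (by linarith)
        refine h4.trans ?_
        have h5 : ((1 / 2 : ℝ) ^ a) ≤ ((3 / 4 : ℝ) ^ a) ^ 2 := by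
          rw [← pow_mul, mul_comm, pow_mul]
          exact pow_le_pow_left₀ (by norm_num) (by norm_num) _
        refine (Real.rpow_le_rpow (by positivity) h5 (by norm_num)).trans (le_of_eq ?_)
        rw [← Real.sqrt_eq_rpow, Real.sqrt_sq (by positivity)]
      calc 4 * (q + 2) * p * (((T / p ^ a : ℕ) : ℝ)) ^ (1 - c)
          ≤ 4 * (q + 2) * p * ((T : ℝ) ^ (1 - c) * (3 / 4) ^ a) := mul_le_mul_of_nonneg_left h3 (by positivity)
        _ = _ := by ring
  have hgeom : ∑ a ∈ Finset.range (T + 1), ((3 : ℝ) / 4) ^ a ≤ 4 := by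
    have h1 := (summable_geometric_of_lt_one (by norm_num : (0 : ℝ) ≤ 3 / 4) (by norm_num)).sum_le_tsum
      (Finset.range (T + 1)) (fun i _ => by positivity)
    rw [tsum_geometric_of_lt_one (by norm_num) (by norm_num)] at h1
    norm_num at h1
    exact h1
  calc (((Finset.Icc 1 T).filter B).card : ℝ)
      ≤ ∑ a ∈ Finset.range (T + 1), (((F (T / p ^ a)).image fun n => p ^ a * n).card : ℝ) := by
        exact_mod_cast (Finset.card_le_card hsub).trans Finset.card_biUnion_le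
    _ ≤ ∑ a ∈ Finset.range (T + 1), 4 * (q + 2) * p * (T : ℝ) ^ (1 - c) * (3 / 4) ^ a := Finset.sum_le_sum hterm
    _ = 4 * (q + 2) * p * (T : ℝ) ^ (1 - c) * ∑ a ∈ Finset.range (T + 1), ((3 : ℝ) / 4) ^ a := by
        rw [Finset.mul_sum]
    _ ≤ 4 * (q + 2) * p * (T : ℝ) ^ (1 - c) * 4 := mul_le_mul_of_nonneg_left hgeom (by positivity)
    _ = _ := by ring

open Classical in
/-- tuples of integers -/
theorem pint_tuples (k q : ℕ) : ∃ C : ℕ,
    ∀ (δ p : ℕ) [Fact p.Prime] (A : Type) [NormedField A] [NormedAlgebra ℚ_[p] A] [CharZero A] (L : A → A), Iw p L →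
    ∀ (w : Fin q → A) (T : ℕ), 1 ≤ T →
    (((Fintype.piFinset fun _ : Fin k => Finset.Icc 1 T).filter fun n =>
      BadW δ δ δ w (fun i => L (n i : A))).card : ℝ) ≤
      C * p * (T : ℝ) ^ ((k : ℝ) - 1 / ((δ : ℝ) + 2) ^ C) := by
  obtain ⟨E, ⟨c, hc⟩, hE⟩ := pcount (k + 1) (q + k)
  refine ⟨16 * (q + k + 2) * k + (c + 1), fun δ p _ A _ _ _ L hL w T hT => ?_⟩
  set C := 16 * (q + k + 2) * k + (c + 1) with hC
  have hT1 : (1 : ℝ) ≤ T := by exact_mod_cast hT
  have hT0 : (0 : ℝ) < T := by linarith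
  set Z : ℝ := 16 * (q + k + 2) * p * (T : ℝ) ^ (1 - 1 / ((E δ : ℝ) + 2)) with hZ
  have hZ0 : 0 ≤ Z := by positivity
  have h1 := tup_bad (fun n : ℕ => L (n : A)) δ T ⌊Z⌋₊ (q + k) ((k + 1) * δ) (Finset.Icc 1 T)
    (by rw [Nat.card_Icc, Nat.add_sub_cancel]) (fun w' => by
      apply Nat.le_floor
      have h2 := hE δ p A L hL w' T hT
      push_cast at h2
      exact h2) k δ (Fin q) w (by rw [Fintype.card_fin]) (le_of_eq (by ring))
  have h2 : (((Fintype.piFinset fun _ : Fin k => Finset.Icc 1 T).filter fun n =>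
      BadW δ δ δ w (fun i => L (n i : A))).card : ℝ) ≤ k * ⌊Z⌋₊ * (T : ℝ) ^ (k - 1) := by exact_mod_cast h1
  refine h2.trans ?_
  rcases Nat.eq_zero_or_pos k with hk | hk
  · subst hk
    simp only [Nat.cast_zero, zero_mul]
    positivity
  have h3 : (⌊Z⌋₊ : ℝ) ≤ Z := Nat.floor_le hZ0
  have hEp : (E δ : ℝ) + 2 ≤ ((δ : ℝ) + 2) ^ C := by
    have h4 : E δ + 2 ≤ (δ + 2) ^ (c + 1) + (δ + 2) ^ 1 := by
      have h41 := hc δ
      have h42 : (δ + 2) ^ c ≤ (δ + 2) ^ (c + 1) := Nat.pow_le_pow_right (by omega) (by omega)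
      rw [pow_one]
      omega
    have hC2 : c + 2 ≤ C := by
      have h43 : 1 ≤ (q + k + 2) * k := Nat.mul_pos (by omega) hk
      have h44 : 16 * (q + k + 2) * k = 16 * ((q + k + 2) * k) := by ring
      omega
    have h5 : (δ + 2) ^ (c + 1) + (δ + 2) ^ 1 ≤ (δ + 2) ^ (c + 2) := by
      have h51 : (δ + 2) ^ 1 ≤ (δ + 2) ^ (c + 1) := Nat.pow_le_pow_right (by omega) (by omega)
      have h52 : (δ + 2) ^ (c + 2) = (δ + 2) ^ (c + 1) * (δ + 2) := by rw [← pow_succ]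
      have h53 : (δ + 2) ^ (c + 1) * 2 ≤ (δ + 2) ^ (c + 1) * (δ + 2) := Nat.mul_le_mul_left _ (by omega)
      omega
    have h6 : (δ + 2) ^ (c + 2) ≤ (δ + 2) ^ C := Nat.pow_le_pow_right (by omega) hC2
    exact_mod_cast h4.trans (h5.trans h6)
  have hE0 : (0 : ℝ) ≤ E δ := Nat.cast_nonneg _
  have h6 : 1 / ((δ : ℝ) + 2) ^ C ≤ 1 / ((E δ : ℝ) + 2) := one_div_le_one_div_of_le (by linarith) hEp
  calc (k : ℝ) * ⌊Z⌋₊ * (T : ℝ) ^ (k - 1) ≤ k * Z * (T : ℝ) ^ (k - 1) := by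
        gcongr
    _ = 16 * (q + k + 2) * k * p * ((T : ℝ) ^ (1 - 1 / ((E δ : ℝ) + 2)) * (T : ℝ) ^ (k - 1)) := by
        rw [hZ]; ring
    _ = 16 * (q + k + 2) * k * p * (T : ℝ) ^ ((k : ℝ) - 1 / ((E δ : ℝ) + 2)) := by
        rw [← Real.rpow_natCast, ← Real.rpow_add hT0]
        congr 2
        rw [Nat.cast_sub hk]
        push_cast
        ring
    _ ≤ C * p * (T : ℝ) ^ ((k : ℝ) - 1 / ((δ : ℝ) + 2) ^ C) := by
        refine mul_le_mul ?_ (Real.rpow_le_rpow_of_exponent_le hT1 (by linarith)) (by positivity)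
          (by positivity)
        refine mul_le_mul_of_nonneg_right ?_ (Nat.cast_nonneg _)
        rw [hC]
        push_cast
        have : (0 : ℝ) ≤ c := Nat.cast_nonneg _
        linarith

end Pool.Agent.R351.GD
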