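import Pool.Agent.Y916.Om.Box
import Pool.Agent.R351.GD.P.AH

/-!
# Boxes: at most `C H^(k-1)` exceptional `k`-tuples, with a polynomially bounded exponent
-/

set_option autoImplicit false

open Module

namespace Pool.Agent.R351.GD

open Pool.Agent.Y916.Hil Pool.Agent.Y916.Om

/-- windows in terms of `BadW` -/
theorem win1_exp (Ev : ℕ → ℕ → ℕ) (hEv : ∀ N, PB (Ev N)) {σ : Type} [Fintype σ] [DecidableEq σ] (m τ A B : ℕ) :
    ∃ E : ℕ → ℕ, PB E ∧ ∀ (δ : ℕ) (Ω : Type) [Field Ω] [CharZero Ω] (I : Type) (size : I → ℕ) (val : I → ℕ → σ → Ω),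
    Inp Ev size val → ∀ (H : ℕ) (t : I), (H + 2) ^ E δ ≤ size t →
    ∀ (υ : Type) [Fintype υ] (w : υ → Ω) (T : Finset υ), T.card = τ → Dom A B w T →
    ∃ S : Finset ℕ, S.card ≤ τ ∧ ∀ g : ℕ, 1 ≤ g → g ≤ H → g ∉ S → ¬ BadW δ δ (m * δ) w (val t g) := by
  classical
  obtain ⟨E, hEp, hE⟩ := awh_exp Ev hEv (σ := σ) 1 τ A B
  refine ⟨fun δ => E (m * δ + δ), hEp.comp (((PB.const m).mul PB.id).add PB.id),
    fun δ Ω _ _ I size val hval H t ht υ _ w T hT hD => ?_⟩
  set e : ℕ := m * δ with he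
  set d : ℕ := δ with hd
  obtain ⟨S, hS, h⟩ := hE (e + δ) Ω I size val hval H t ht υ w T hT hD
  refine ⟨S, hS, fun g hg1 hg2 hgS hbad => ?_⟩
  obtain ⟨K, hK, hKd, P, hP0, hPd, hPc, hPv⟩ := hbad
  choose p hpd hpv using fun s => lift_pow w e (hPc s)
  set P' : MvPolynomial (υ ⊕ Fin 1 × σ) K := ∑ s ∈ P.support, MvPolynomial.rename Sum.inl (p s) *
    MvPolynomial.rename (fun i => Sum.inr ((0 : Fin 1), i)) (MvPolynomial.monomial s (1 : K)) with hP'
  have hdeg : P'.totalDegree ≤ e + δ := by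
    refine MvPolynomial.totalDegree_finsetSum_le fun s hs => ?_
    refine (MvPolynomial.totalDegree_mul _ _).trans (add_le_add ?_ ?_)
    · exact (MvPolynomial.totalDegree_rename_le _ _).trans (hpd s)
    · refine (MvPolynomial.totalDegree_rename_le _ _).trans ?_
      refine (MvPolynomial.totalDegree_monomial_le _ _).trans ?_
      exact (MvPolynomial.le_totalDegree hs).trans hPd
  have hval' : ∀ (R : Type) [CommRing R] [Algebra Ω R] (z : Fin 1 × σ → R),
      MvPolynomial.aeval (Sum.elim (fun j => algebraMap Ω R (w j)) z) P' =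
        MvPolynomial.aeval (fun i => z (0, i)) P := by
    intro R _ _ z
    rw [hP', map_sum]
    conv_rhs => rw [MvPolynomial.as_sum P, map_sum]
    refine Finset.sum_congr rfl fun s _ => ?_
    rw [map_mul, MvPolynomial.aeval_rename, MvPolynomial.aeval_rename, MvPolynomial.aeval_monomial,
      MvPolynomial.aeval_monomial, map_one, one_mul]
    congr 1
    have h1 : (Sum.elim (fun j => algebraMap Ω R (w j)) z ∘ Sum.inl) = fun j => algebraMap Ω R (w j) := rfl
    rw [h1, ← hpv s]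
    exact MvPolynomial.aeval_algebraMap_apply R w (p s)
  have h1 := h (fun _ => g) (fun i j _ => Subsingleton.elim i j) (fun _ => ⟨hg1, hg2, hgS⟩) K hK (hKd.trans (Nat.le_add_left _ _))
    (fun q => val t g q.2) (fun q => ⟨1, one_ne_zero, by simp⟩) P' hdeg (by
      have := hval' Ω fun q => val t g q.2
      exact this.trans hPv)
  have h2 := hval' (MvPolynomial (Fin 1 × σ) Ω) MvPolynomial.X
  have h3 : (fun j => algebraMap Ω (MvPolynomial (Fin 1 × σ) Ω) (w j)) = fun j => MvPolynomial.C (w j) := rfl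
  rw [h3, h1] at h2
  have h4 : MvPolynomial.aeval (fun i : σ => (MvPolynomial.X ((0 : Fin 1), i) : MvPolynomial (Fin 1 × σ) Ω)) P =
      MvPolynomial.rename (fun i => ((0 : Fin 1), i)) P := by
    rw [← MvPolynomial.aeval_X_left_apply (MvPolynomial.rename (fun i => ((0 : Fin 1), i)) P),
      MvPolynomial.aeval_rename]
    rfl
  rw [h4] at h2
  exact hP0 (MvPolynomial.rename_injective (fun i : σ => ((0 : Fin 1), i)) (fun i j hij => (Prod.mk.inj hij).2)
    (h2.symm.trans (map_zero _).symm))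

/-- windows for `x` -/
theorem win2_exp (Ev : ℕ → ℕ → ℕ) (hEv : ∀ N, PB (Ev N)) {σ : Type} [Fintype σ] [DecidableEq σ] (m τ τ₀ A B : ℕ) :
    ∃ E : ℕ → ℕ, PB E ∧ ∀ (δ : ℕ) (Ω : Type) [Field Ω] [CharZero Ω] (I : Type) (size : I → ℕ) (val x : I → ℕ → σ → Ω),
    Inp Ev size val → LinkI τ₀ val x → ∀ (H : ℕ) (t : I), (H + 2) ^ E δ ≤ size t →
    ∀ (υ : Type) [Fintype υ] (w : υ → Ω) (T : Finset υ), T.card = τ → Dom A B w T →
    ∃ S : Finset ℕ, S.card ≤ τ + τ₀ ∧ ∀ g : ℕ, 1 ≤ g → g ≤ H → g ∉ S → ¬ BadW δ δ (m * δ) w (x t g) := by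
  classical
  obtain ⟨E, hEp, hE⟩ := win1_exp Ev hEv (σ := σ) (m + 1) (τ + τ₀) A B
  refine ⟨E, hEp, fun δ Ω _ _ I size val x hval hlink H t ht υ _ w T hT hD => ?_⟩
  set e : ℕ := m * δ with he
  set d : ℕ := δ with hd
  obtain ⟨w₀, hw₀⟩ := hlink t
  set w' : υ ⊕ Fin τ₀ → Ω := Sum.elim w w₀ with hw'
  have hD' : Dom A B w' (T.disjSum Finset.univ) := by
    refine hD.of w' _ (fun j hj => ⟨Sum.inl j, Finset.inl_mem_disjSum.2 hj, rfl⟩) ?_
    rintro (j | j)
    · exact Or.inr ⟨j, rfl⟩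
    · exact Or.inl (Finset.inr_mem_disjSum.2 (Finset.mem_univ _))
  obtain ⟨S, hS, h⟩ := hE δ Ω I size val hval H t ht (υ ⊕ Fin τ₀) w' (T.disjSum Finset.univ)
    (by rw [Finset.card_disjSum, hT, Finset.card_univ, Fintype.card_fin]) hD'
  refine ⟨S, hS, fun g hg1 hg2 hgS hbad => h g hg1 hg2 hgS ?_⟩
  have hee : (m + 1) * δ = e + δ := by rw [he]; ring
  rw [hee]
  have hbad' : BadW d δ e w' (x t g) := hbad.mono fun j => Or.inr ⟨Sum.inl j, rfl⟩
  obtain ⟨K, h1, h2, h3⟩ := hbad'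
  refine BadW.affine K h1 h2 (fun s => ⟨1, one_ne_zero, ?_⟩) h3
  have h4 := hw₀ g hg1 s
  have h5 : Submodule.span ℚ (insert (1 : Ω) (Set.range w₀)) ≤
      (Submodule.span K (insert (1 : Ω) (Set.range w'))).restrictScalars ℚ := by
    refine Submodule.span_le.2 ?_
    rintro _ (rfl | ⟨j, rfl⟩)
    · exact Submodule.subset_span (Set.mem_insert _ _)
    · exact Submodule.subset_span (Set.mem_insert_of_mem _ ⟨Sum.inr j, rfl⟩)
  have h6 := h5 h4
  simpa using h6

open Classical in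
/-- **Boxes** -/
theorem box_exp (Ev : ℕ → ℕ → ℕ) (hEv : ∀ N, PB (Ev N)) {σ : Type} [Fintype σ] [DecidableEq σ] (τ₀ A B k : ℕ) :
    ∀ m τ : ℕ, ∃ E : ℕ → ℕ, PB E ∧ ∀ (δ : ℕ) (Ω : Type) [Field Ω] [CharZero Ω] (I : Type) (size : I → ℕ) (val x : I → ℕ → σ → Ω),
    Inp Ev size val → LinkI τ₀ val x → ∀ (H : ℕ) (t : Fin k → I), (∀ i, (H + 2) ^ E δ ≤ size (t i)) →
    ∀ (υ : Type) [Fintype υ] (w : υ → Ω) (T : Finset υ), T.card = τ → Dom A B w T →
    ((Fintype.piFinset fun _ : Fin k => Finset.Icc 1 H).filter fun g =>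
      BadW δ δ (m * δ) w (fun q : Fin k × σ => x (t q.1) (g q.1) q.2)).card ≤
        (k * (τ + τ₀) + Fintype.card σ * k.choose 2) * H ^ (k - 1) := by
  induction k with
  | zero =>
    intro m τ
    refine ⟨fun _ => 0, PB.const 0, fun δ Ω _ _ I size val x _ _ H t _ υ _ w T _ _ => ?_⟩
    rw [Finset.filter_false_of_mem, Finset.card_empty]
    · exact Nat.zero_le _
    · rintro g _ ⟨K, -, -, P, hP0, -, -, hPv⟩
      obtain ⟨a, rfl⟩ : ∃ a, P = MvPolynomial.C a := ⟨_, MvPolynomial.eq_C_of_isEmpty P⟩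
      rw [MvPolynomial.aeval_C] at hPv
      apply hP0
      have : a = 0 := hPv
      rw [this, map_zero]
  | succ k ih =>
    intro m τ
    obtain ⟨E₁, h₁p, h₁'⟩ := ih m τ
    obtain ⟨E₂, h₂p, h₂'⟩ := win2_exp Ev hEv (σ := σ) (m + 1) (τ + k * Fintype.card σ) τ₀ A B
    refine ⟨fun δ => max (E₁ δ) (E₂ δ), h₁p.max h₂p, fun δ Ω _ _ I size val x hval hlink H t ht υ _ w T hT hD => ?_⟩
    have hee : (m + 1) * δ = m * δ + δ := by ring
    have h₁ := h₁' δ
    have h₂ := h₂' δ
    rw [hee] at h₂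
    set e : ℕ := m * δ with he
    set d : ℕ := δ with hd
    set E₁ := E₁ δ
    set E₂ := E₂ δ
    have ht1 : ∀ i, (H + 2) ^ E₁ ≤ size (t i) := fun i =>
      (Nat.pow_le_pow_right (by omega) (le_max_left _ _)).trans (ht i)
    have ht2 : ∀ i, (H + 2) ^ E₂ ≤ size (t i) := fun i =>
      (Nat.pow_le_pow_right (by omega) (le_max_right _ _)).trans (ht i)
    set t' : Fin k → I := fun i => t i.succ with ht'
    set y : (Fin k → ℕ) → Fin k × σ → Ω := fun g q => x (t' q.1) (g q.1) q.2 with hy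
    set bad₁ := (Fintype.piFinset fun _ : Fin k => Finset.Icc 1 H).filter fun g => BadW d δ e w (y g) with hbad₁
    set bad₂ : (Fin k → ℕ) → Finset ℕ := fun g => (Finset.Icc 1 H).filter fun n =>
      BadW d δ (e + δ) (Sum.elim w (y g)) (x (t 0) n) with hbad₂
    have hsub : ((Fintype.piFinset fun _ : Fin (k + 1) => Finset.Icc 1 H).filter fun g =>
        BadW d δ e w (fun q : Fin (k + 1) × σ => x (t q.1) (g q.1) q.2)) ⊆
        ((Finset.Icc 1 H ×ˢ bad₁).image fun p => (Fin.cons p.1 p.2 : Fin (k + 1) → ℕ)) ∪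
        (((Fintype.piFinset fun _ : Fin k => Finset.Icc 1 H).sigma bad₂).image
          fun p => (Fin.cons p.2 p.1 : Fin (k + 1) → ℕ)) := by
      intro g hg
      obtain ⟨hg1, hg2⟩ := Finset.mem_filter.1 hg
      rw [Fintype.mem_piFinset] at hg1
      set en : Fin k × σ ⊕ σ ≃ Fin (k + 1) × σ :=
        { toFun := Sum.elim (fun p => (p.1.succ, p.2)) (fun s => (0, s))
          invFun := fun p => Fin.cases (Sum.inr p.2) (fun i => Sum.inl (i, p.2)) p.1
          left_inv := by rintro (⟨i, s⟩ | s) <;> simp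
          right_inv := by
            rintro ⟨i, s⟩
            refine Fin.cases ?_ (fun i => ?_) i <;> simp } with hen
      have h4 : (fun j => x (t (en j).1) (g (en j).1) (en j).2) =
          Sum.elim (y fun i => g i.succ) (x (t 0) (g 0)) := by
        funext j
        rcases j with ⟨i, s⟩ | s
        · rfl
        · rfl
      have h3 : BadW d δ e w (Sum.elim (y fun i => g i.succ) (x (t 0) (g 0))) := by
        obtain ⟨K, hK1, hK2, hK3⟩ := hg2
        refine ⟨K, hK1, hK2, ?_⟩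
        rw [← h4]
        exact hK3.reindex en
      have htail : (fun i => g i.succ) ∈ Fintype.piFinset fun _ : Fin k => Finset.Icc 1 H := by
        rw [Fintype.mem_piFinset]
        exact fun i => hg1 i.succ
      rcases h3.split with h5 | h5
      · refine Finset.mem_union_left _ (Finset.mem_image.2 ⟨(g 0, fun i => g i.succ), ?_, ?_⟩)
        · exact Finset.mem_product.2 ⟨hg1 0, Finset.mem_filter.2 ⟨htail, h5⟩⟩
        · funext i
          refine Fin.cases ?_ (fun i => ?_) i <;> simp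
      · refine Finset.mem_union_right _ (Finset.mem_image.2 ⟨⟨fun i => g i.succ, g 0⟩, ?_, ?_⟩)
        · exact Finset.mem_sigma.2 ⟨htail, Finset.mem_filter.2 ⟨hg1 0, h5⟩⟩
        · funext i
          refine Fin.cases ?_ (fun i => ?_) i <;> simp
    have hb1 : bad₁.card ≤ (k * (τ + τ₀) + Fintype.card σ * k.choose 2) * H ^ (k - 1) :=
      h₁ Ω I size val x hval hlink H t' (fun i => ht1 i.succ) υ w T hT hD
    have hb2 : ∀ g, (bad₂ g).card ≤ τ + k * Fintype.card σ + τ₀ := by
      intro g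
      obtain ⟨S, hS, h⟩ := h₂ Ω I size val x hval hlink H (t 0) (ht2 0) (υ ⊕ Fin k × σ) (Sum.elim w (y g))
        (T.disjSum Finset.univ)
        (by rw [Finset.card_disjSum, hT, Finset.card_univ, Fintype.card_prod, Fintype.card_fin])
        (hD.of _ _ (fun j hj => ⟨Sum.inl j, Finset.inl_mem_disjSum.2 hj, rfl⟩) (by
          rintro (j | j)
          · exact Or.inr ⟨j, rfl⟩
          · exact Or.inl (Finset.inr_mem_disjSum.2 (Finset.mem_univ _))))
      refine (Finset.card_le_card fun n hn => ?_).trans hS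
      obtain ⟨hn1, hn2⟩ := Finset.mem_filter.1 hn
      obtain ⟨hn3, hn4⟩ := Finset.mem_Icc.1 hn1
      by_contra hcon
      exact h n hn3 hn4 hcon hn2
    refine (Finset.card_le_card hsub).trans ((Finset.card_union_le _ _).trans
      ((add_le_add Finset.card_image_le Finset.card_image_le).trans ?_))
    rw [Finset.card_product, Finset.card_sigma, Nat.card_Icc, Nat.add_sub_cancel]
    have h6 : ∑ g ∈ Fintype.piFinset (fun _ : Fin k => Finset.Icc 1 H), (bad₂ g).card ≤
        H ^ k * (τ + k * Fintype.card σ + τ₀) := by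
      refine (Finset.sum_le_card_nsmul _ _ _ fun g _ => hb2 g).trans (le_of_eq ?_)
      rw [smul_eq_mul, Fintype.card_piFinset]
      simp
    have h7 : H * bad₁.card ≤ (k * (τ + τ₀) + Fintype.card σ * k.choose 2) * H ^ k := by
      rcases Nat.eq_zero_or_pos k with rfl | hk
      · have h8 : bad₁.card = 0 := by
          have h9 := hb1
          simp only [zero_mul, Nat.choose_zero_succ, mul_zero, add_zero, Nat.le_zero] at h9
          exact h9
        rw [h8, mul_zero]
        exact Nat.zero_le _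
      · calc H * bad₁.card ≤ H * ((k * (τ + τ₀) + Fintype.card σ * k.choose 2) * H ^ (k - 1)) :=
              Nat.mul_le_mul_left _ hb1
          _ = (k * (τ + τ₀) + Fintype.card σ * k.choose 2) * (H ^ (k - 1) * H) := by ring
          _ = _ := by rw [← pow_succ, Nat.sub_add_cancel hk]
    refine (add_le_add h7 h6).trans (le_of_eq ?_)
    rw [Nat.add_sub_cancel, Nat.choose_succ_succ' k 1, Nat.choose_one_right]
    ring

end Pool.Agent.R351.GD
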