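import Pool.Agent.Y921.PW.Val
import Pool.Agent.R351.GD.P.Fin
import Pool.Agent.R351.GD.Valc

/-!
# The values of the functions `∫ z^s / T` at `p^e / v`, with a polynomially bounded exponent
-/

set_option autoImplicit false

open PowerSeries

namespace Pool.Agent.R351.GD

open Pool.Agent.Y113 Pool.Agent.Y916 Pool.Agent.Y535.LG Pool.Agent.Y921.PW

theorem valp_exp (n : ℕ) : ∃ E : ℕ → ℕ, PB E ∧ ∀ (Δ H : ℕ) (T : Polynomial ℤ) (p : ℕ) [Fact p.Prime] (t v : ℕ), (H + 2) ^ E Δ ≤ t →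
    0 < v → v ≤ t → ‖((((t : ℚ) / v : ℚ)) : ℚ_[p])‖ = 1 / t → T.coeff 0 = 1 →
    T.natDegree = n → Squarefree (T.map (Int.castRingHom ℚ)) → (∀ l, |T.coeff l| ≤ H) →
    (T.map (Int.castRingHom ℚ)).eval ((t : ℚ) / v) ≠ 0 →
    ∀ P : MvPolynomial (Fin n) ℚ, P.totalDegree ≤ Δ →
      MvPolynomial.aeval (fun s : Fin n => evp ((((t : ℚ) / v : ℚ)) : ℚ_[p]) (F T s)) P = 0 → P = 0 := by
  obtain ⟨E₀, hE₀⟩ := Pool.Agent.Y419.LB.base_holds n
  obtain ⟨E₂, hE₂p, hE₂'⟩ := gof_p Pool.Agent.Y141.GF.t_shid Pool.Agent.Y141.GF.t_loc n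
  refine ⟨fun Δ => ((E₀ + 1) * ((n + n + 3) * (Δ + 1)) + 1) * E₂ (Fintype.card (Mn n Δ)) + (n + 1) + (E₀ + 1), ?_,
    fun Δ H T p _ t v ht hv hvt hxt h0 hd hsq hH hne P hP hPv => ?_⟩
  · have hNp : PB fun Δ => Fintype.card (Mn n Δ) :=
      PB.of_le ((PB.id.add (PB.const 1)).pow n) fun Δ => Pool.Agent.Y419.AL.card_le n Δ
    exact ((((((PB.const (E₀ + 1)).mul ((PB.const (n + n + 3)).mul (PB.id.add (PB.const 1)))).add
      (PB.const 1)).mul (hE₂p.comp hNp)).add (PB.const (n + 1))).add (PB.const (E₀ + 1)))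
  set E₁ := (n + n + 3) * (Δ + 1)
  have hE₁ : ∀ (C : ℝ) (T : Polynomial ℤ) (y : Fin n → ℚ⟦X⟧),
      GSys n C T (fun i : Option (Fin n) => i.elim (1 : ℚ⟦X⟧) y) → GSys n ((2 * C) ^ E₁) T (mo y Δ) :=
    fun C T y h => mon_exp n n Δ h
  have hE₂ := hE₂' (Fintype.card (Mn n Δ))
  set E₂ := E₂ (Fintype.card (Mn n Δ))
  set x : ℚ_[p] := ((((t : ℚ) / v : ℚ)) : ℚ_[p]) with hx
  have hB : (1 : ℝ) ≤ (H : ℝ) + 2 := one_le_base H
  have htN : ∀ a, a ≤ ((E₀ + 1) * E₁ + 1) * E₂ + (n + 1) + (E₀ + 1) → (H + 2) ^ a ≤ t := fun a ha =>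
    (Nat.pow_le_pow_right (by omega) ha).trans ht
  have htR : ∀ a, a ≤ ((E₀ + 1) * E₁ + 1) * E₂ + (n + 1) + (E₀ + 1) →
      ((H : ℝ) + 2) ^ a ≤ t := fun a ha => by exact_mod_cast htN a ha
  have hG := hE₀ H T h0 hd.le hH
  have ht1 : (1 : ℝ) ≤ t := by simpa using htR 0 (by omega)
  have ht0 : (0 : ℝ) < t := by linarith
  have hG2 := (hE₁ _ T (fun s : Fin n => F T s) hG).mono le_rfl (pow_base H _ _)
  let e₀ : Mn n Δ := ⟨fun _ => 0, by simp⟩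
  have hev := hE₂ (Mn n Δ) _ T (mo (fun s : Fin n => F T s) Δ) e₀ p t v le_rfl hG2
    (by simp [mo, e₀]) (Pool.Agent.Y796.LI.t_LI n Δ T h0 hd hsq)
    ((pow_base H _ _).trans (htR _ (by omega))) hv hvt hxt hne
  -- evaluation
  have hcv : ∀ s : Fin n, Cvp x (F T s) := by
    intro s
    refine Cvp.of_bound (A := ((H : ℝ) + 2) ^ E₀) (B := ((H : ℝ) + 2) ^ E₀) (by positivity) ?_
      fun m => ?_
    · rw [hxt, mul_one_div, div_lt_one ht0]
      refine lt_of_lt_of_le ?_ (htR (E₀ + 1) (by omega))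
      exact pow_lt_pow_right₀ (by linarith [show (0 : ℝ) ≤ H by positivity]) (by omega)
    · have := size_p (p := p) hG (some s) (le_refl m)
      rw [pow_succ'] at this
      exact this
  have hmo : ∀ e : Mn n Δ, evp x (mo (fun s : Fin n => F T s) Δ e) =
      ∏ s : Fin n, (evp x (F T s)) ^ (e.1 s : ℕ) := by
    intro e
    unfold mo
    rw [Cvp.ev_prod _ _ fun s _ => (hcv s).pow _]
    exact Finset.prod_congr rfl fun s _ => (hcv s).ev_pow _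
  rw [aeval_sum_p P hP] at hPv
  have h3 := Fintype.linearIndependent_iff.1 hev (fun e => P.coeff (toF e)) (by
    rw [← hPv]
    exact Finset.sum_congr rfl fun e _ => congrArg _ (hmo e))
  ext d
  rw [MvPolynomial.coeff_zero]
  by_contra hne
  obtain ⟨e, he⟩ := toF_surj P hP d (MvPolynomial.mem_support_iff.2 hne)
  rw [← he] at hne
  exact hne (h3 e)

end Pool.Agent.R351.GD
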