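import Pool.Agent.Y921.PW.Log
import Pool.Agent.R351.GD.P.Val

/-!
# The functions `log (1 + g z)`
-/

set_option autoImplicit false

open PowerSeries

namespace Pool.Agent.R351.GD

open Pool.Agent.Y113 Pool.Agent.Y916 Pool.Agent.Y921.PW

/-- **The values of distinct `log (1 + g z)` at `p^e / v` have no polynomial relation of small degree.** -/
theorem logsp_exp (n : ℕ) : ∃ E : ℕ → ℕ, PB E ∧ ∀ (Δ H p e v : ℕ) [Fact p.Prime], (H + 2) ^ E Δ ≤ p ^ e → ¬ p ∣ v →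
    v ≤ p ^ e → ∀ g : Fin n → ℕ, Function.Injective g → (∀ i, 1 ≤ g i ∧ g i ≤ H) →
    ∀ P : MvPolynomial (Fin n) ℚ, P.totalDegree ≤ Δ →
      MvPolynomial.aeval (fun i : Fin n => evp ((((p ^ e : ℕ) : ℚ) / v : ℚ) : ℚ_[p]) (lgp (g i))) P = 0 → P = 0 := by
  obtain ⟨E₀, hE₀p, hE₀⟩ := valp_exp n
  obtain ⟨E₁, hE₁⟩ := cv_F n
  refine ⟨fun Δ => (n + 2) * (E₀ Δ + E₁ + 1), (PB.const (n + 2)).mul ((hE₀p.add (PB.const E₁)).add (PB.const 1)),
    fun Δ H p e v _ ht hv hvt g hinj hg => ?_⟩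
  have hv0 : 0 < v := by
    rcases Nat.eq_zero_or_pos v with h | h
    · rw [h] at hv
      exact absurd (dvd_zero p) hv
    · exact h
  set H' : ℕ := (H + 1) ^ n with hH'
  have hH2 : H' + 2 ≤ (H + 2) ^ (n + 2) := by
    have h1 : (H + 1) ^ n ≤ (H + 2) ^ n := Nat.pow_le_pow_left (by omega) n
    have h2 : 1 ≤ (H + 2) ^ n := Nat.one_le_pow _ _ (by omega)
    have h3 : 4 ≤ (H + 2) ^ 2 := by
      calc 4 = 2 ^ 2 := by norm_num
        _ ≤ (H + 2) ^ 2 := Nat.pow_le_pow_left (by omega) 2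
    calc H' + 2 ≤ (H + 2) ^ n + 2 * (H + 2) ^ n := by omega
      _ ≤ (H + 2) ^ n * 4 := by omega
      _ ≤ (H + 2) ^ n * (H + 2) ^ 2 := Nat.mul_le_mul_left _ h3
      _ = (H + 2) ^ (n + 2) := by rw [← pow_add]
  have hpow : (H' + 2) ^ (E₀ Δ + E₁ + 1) ≤ p ^ e := by
    refine le_trans (Nat.pow_le_pow_left hH2 _) ?_
    rw [← pow_mul]
    exact ht
  have hxt := norm_point (p := p) (e := e) hv
  have hpe : (0 : ℝ) < ((p ^ e : ℕ) : ℝ) := by
    have : 0 < p ^ e := pow_pos (Fact.out : p.Prime).pos e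
    exact_mod_cast this
  have hcf : ∀ l, |(Tg g).coeff l| ≤ (H' : ℤ) := fun l => by
    have := Tg_coeff g (H := H) (fun i => (hg i).2) l
    exact_mod_cast this
  have hval := hE₀ Δ H' (Tg g) p (p ^ e) v ((Nat.pow_le_pow_right (by omega) (by omega)).trans hpow) hv0 hvt hxt
    (Tg_coeff0 g) (Tg_deg g fun i => (hg i).1) (Tg_sqf hinj fun i => (hg i).1) hcf (by
      rw [map_Tg, Polynomial.eval_prod]
      refine (Finset.prod_pos fun i _ => ?_).ne'
      simp only [Polynomial.eval_add, Polynomial.eval_one, Polynomial.eval_mul, Polynomial.eval_C, Polynomial.eval_X]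
      positivity)
  have hcv : ∀ s : Fin n, Cvp ((((p ^ e : ℕ) : ℚ) / v : ℚ) : ℚ_[p]) (F (Tg g) s) := by
    refine hE₁ H' (Tg g) p _ ?_ (Tg_coeff0 g) (Tg_deg g fun i => (hg i).1).le hcf
    rw [hxt, mul_one_div, div_lt_one hpe]
    have h1 : (H' + 2) ^ E₁ < p ^ e :=
      lt_of_lt_of_le (Nat.pow_lt_pow_right (by omega) (by omega)) hpow
    exact_mod_cast h1
  refine norel (fun i s => (((cf g i).coeff s : ℤ) : ℚ)) (rows hinj fun i => (hg i).1) _ _ (fun i => ?_) hval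
  rw [part g i, Cvp.ev_sum _ _ fun s _ => (Cvp.C _).mul (hcv s)]
  refine Finset.sum_congr rfl fun s _ => ?_
  rw [(Cvp.C _).ev_mul (hcv s), Pool.Agent.Y921.PW.ev_C]

end Pool.Agent.R351.GD
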