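import Pool.Agent.Y916.Om.Box
import Pool.Agent.R351.GD.PB

/-!
# Tuples and relations over number fields with constants: generic counting
-/

set_option autoImplicit false

open Module

namespace Pool.Agent.R351.GD

open Pool.Agent.Y916.Hil Pool.Agent.Y916.Om

variable {Ω : Type} [Field Ω] [CharZero Ω]

theorem BadW.mono_e {d δ e e' : ℕ} {υ κ : Type} {w : υ → Ω} {y : κ → Ω} (h : BadW d δ e w y) (he : e ≤ e') :
    BadW d δ e' w y := by
  obtain ⟨K, h1, h2, h3⟩ := h
  refine ⟨K, h1, h2, h3.mono fun c hc => ?_⟩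
  exact Pool.Agent.Y916.Hil.pow_le_pow (Submodule.subset_span (Set.mem_insert _ _)) he hc

theorem BadW.reindex {d δ e : ℕ} {υ κ κ' : Type} {w : υ → Ω} {y : κ → Ω} (f : κ' ≃ κ)
    (h : BadW d δ e w y) : BadW d δ e w (fun j => y (f j)) := by
  obtain ⟨K, h1, h2, h3⟩ := h
  exact ⟨K, h1, h2, h3.reindex f⟩

/-- a relation over `K(w)` gives `BadW` -/
theorem badW_of {υ κ : Type} [Fintype κ] {δ : ℕ} (w : υ → Ω) (l : κ → Ω) (K : IntermediateField ℚ Ω)
    (hK : FiniteDimensional ℚ K) (hKd : finrank ℚ K ≤ δ) (P : MvPolynomial (υ ⊕ κ) K) (hP : P.totalDegree ≤ δ)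
    (hP0 : MvPolynomial.aeval (Sum.elim w l) P = 0)
    (hne : MvPolynomial.aeval (Sum.elim (fun a => MvPolynomial.C (w a)) MvPolynomial.X) P ≠
      (0 : MvPolynomial κ Ω)) : BadW δ δ δ w l := by
  classical
  have h1 : (1 : Ω) ∈ Submodule.span K (insert (1 : Ω) (Set.range w)) := Submodule.subset_span (Set.mem_insert _ _)
  have hok : Ok ((Submodule.span K (insert (1 : Ω) (Set.range w)) ^ δ : Submodule K Ω) : Set Ω) δ
      (Finset.univ : Finset κ) (MvPolynomial.aeval (Sum.elim (fun a => MvPolynomial.C (w a)) MvPolynomial.X) P) := by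
    refine ok_aeval h1 ?_ hP
    rintro (j | i)
    · exact ok_C (by rw [pow_one]; exact Submodule.subset_span (Set.mem_insert_of_mem _ ⟨j, rfl⟩))
    · exact ok_X h1 (Finset.mem_univ i)
  refine ⟨K, hK, hKd, _, hne, hok.2.1, hok.2.2, ?_⟩
  have h2 : ((MvPolynomial.aeval l : MvPolynomial κ Ω →ₐ[Ω] Ω).restrictScalars K).comp
      (MvPolynomial.aeval (Sum.elim (fun a => MvPolynomial.C (w a)) MvPolynomial.X)) =
      (MvPolynomial.aeval (Sum.elim w l) : MvPolynomial (υ ⊕ κ) K →ₐ[K] Ω) := by
    refine MvPolynomial.algHom_ext fun i => ?_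
    rcases i with j | i
    · simp
    · simp
  have h3 := DFunLike.congr_fun h2 P
  rw [AlgHom.comp_apply, hP0] at h3
  exact h3

omit [CharZero Ω] in
/-- extension of the constants to `Fin Q` -/
theorem exists_fin {υ : Type} [Fintype υ] (w : υ → Ω) {Q : ℕ} (hQ : Fintype.card υ ≤ Q) :
    ∃ w' : Fin Q → Ω, ∀ j, w j = 1 ∨ ∃ j', w' j' = w j := by
  classical
  let e := Fintype.equivFin υ
  refine ⟨fun i => if h : (i : ℕ) < Fintype.card υ then w (e.symm ⟨i, h⟩) else 1, fun j => Or.inr ?_⟩
  refine ⟨⟨e j, lt_of_lt_of_le (e j).2 hQ⟩, ?_⟩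
  simp

open Classical in
/-- tuples -/
theorem tup_bad (x : ℕ → Ω) (δ T Z Q e' : ℕ) (A : Finset ℕ) (hA : A.card ≤ T)
    (H : ∀ w' : Fin Q → Ω, (A.filter fun n => BadW δ δ e' w' (fun _ : Unit => x n)).card ≤ Z) (k : ℕ) :
    ∀ (e : ℕ) (υ : Type) [Fintype υ] (w : υ → Ω), Fintype.card υ + k ≤ Q → e + k * δ ≤ e' →
    ((Fintype.piFinset fun _ : Fin k => A).filter fun t => BadW δ δ e w (fun i => x (t i))).card ≤
      k * Z * T ^ (k - 1) := by
  induction k with
  | zero =>
    intro e υ _ w _ _
    rw [Finset.filter_false_of_mem, Finset.card_empty]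
    · exact Nat.zero_le _
    · rintro g _ ⟨K, -, -, P, hP0, -, -, hPv⟩
      obtain ⟨a, rfl⟩ : ∃ a, P = MvPolynomial.C a := ⟨_, MvPolynomial.eq_C_of_isEmpty P⟩
      rw [MvPolynomial.aeval_C] at hPv
      apply hP0
      have : a = 0 := hPv
      rw [this, map_zero]
  | succ k ih =>
    intro e υ _ w hυ he
    have hek : e + k * δ ≤ e' := by
      have : (k + 1) * δ = k * δ + δ := by ring
      omega
    have heδ : e + δ ≤ e' := by
      have : (k + 1) * δ = k * δ + δ := by ring
      have h0 : 0 ≤ k * δ := Nat.zero_le _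
      omega
    set y : (Fin k → ℕ) → Fin k → Ω := fun t i => x (t i) with hy
    set bad₁ := (Fintype.piFinset fun _ : Fin k => A).filter fun t => BadW δ δ e w (y t) with hbad₁
    set bad₂ : (Fin k → ℕ) → Finset ℕ := fun t => A.filter fun n =>
      BadW δ δ (e + δ) (Sum.elim w (y t)) (fun _ : Unit => x n) with hbad₂
    have hsub : ((Fintype.piFinset fun _ : Fin (k + 1) => A).filter fun t =>
        BadW δ δ e w (fun i => x (t i))) ⊆
        ((A ×ˢ bad₁).image fun p => (Fin.cons p.1 p.2 : Fin (k + 1) → ℕ)) ∪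
        (((Fintype.piFinset fun _ : Fin k => A).sigma bad₂).image
          fun p => (Fin.cons p.2 p.1 : Fin (k + 1) → ℕ)) := by
      intro t ht
      obtain ⟨ht1, ht2⟩ := Finset.mem_filter.1 ht
      rw [Fintype.mem_piFinset] at ht1
      set en : Fin k ⊕ Unit ≃ Fin (k + 1) :=
        { toFun := Sum.elim (fun i => i.succ) (fun _ => 0)
          invFun := fun i => Fin.cases (Sum.inr ()) (fun i => Sum.inl i) i
          left_inv := by rintro (i | s) <;> simp
          right_inv := by
            intro i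
            refine Fin.cases ?_ (fun i => ?_) i <;> simp } with hen
      have h4 : (fun j => x (t (en j))) = Sum.elim (y fun i => t i.succ) (fun _ : Unit => x (t 0)) := by
        funext j
        rcases j with i | s
        · rfl
        · rfl
      have h3 : BadW δ δ e w (Sum.elim (y fun i => t i.succ) (fun _ : Unit => x (t 0))) := by
        rw [← h4]
        exact BadW.reindex en ht2
      have htail : (fun i => t i.succ) ∈ Fintype.piFinset fun _ : Fin k => A := by
        rw [Fintype.mem_piFinset]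
        exact fun i => ht1 i.succ
      rcases h3.split with h5 | h5
      · refine Finset.mem_union_left _ (Finset.mem_image.2 ⟨(t 0, fun i => t i.succ), ?_, ?_⟩)
        · exact Finset.mem_product.2 ⟨ht1 0, Finset.mem_filter.2 ⟨htail, h5⟩⟩
        · funext i
          refine Fin.cases ?_ (fun i => ?_) i <;> simp
      · refine Finset.mem_union_right _ (Finset.mem_image.2 ⟨⟨fun i => t i.succ, t 0⟩, ?_, ?_⟩)
        · exact Finset.mem_sigma.2 ⟨htail, Finset.mem_filter.2 ⟨ht1 0, h5⟩⟩
        · funext i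
          refine Fin.cases ?_ (fun i => ?_) i <;> simp
    have hb1 : bad₁.card ≤ k * Z * T ^ (k - 1) := ih e υ w (by omega) hek
    have hb2 : ∀ t, (bad₂ t).card ≤ Z := by
      intro t
      obtain ⟨w', hw'⟩ := exists_fin (Sum.elim w (y t)) (Q := Q) (by
        rw [Fintype.card_sum, Fintype.card_fin]
        omega)
      refine (Finset.card_le_card fun n hn => ?_).trans (H w')
      obtain ⟨hn1, hn2⟩ := Finset.mem_filter.1 hn
      exact Finset.mem_filter.2 ⟨hn1, BadW.mono_e (hn2.mono hw') heδ⟩
    refine (Finset.card_le_card hsub).trans ((Finset.card_union_le _ _).trans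
      ((add_le_add Finset.card_image_le Finset.card_image_le).trans ?_))
    rw [Finset.card_product, Finset.card_sigma]
    have h6 : ∑ t ∈ Fintype.piFinset (fun _ : Fin k => A), (bad₂ t).card ≤ T ^ k * Z := by
      refine (Finset.sum_le_card_nsmul _ _ _ fun g _ => hb2 g).trans ?_
      rw [smul_eq_mul, Fintype.card_piFinset]
      simp only [Finset.prod_const, Finset.card_univ, Fintype.card_fin]
      exact Nat.mul_le_mul_right _ (Nat.pow_le_pow_left hA _)
    have h7 : A.card * bad₁.card ≤ k * Z * T ^ k := by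
      rcases Nat.eq_zero_or_pos k with rfl | hk
      · have h8 : bad₁.card = 0 := by
          have h9 := hb1
          simp only [zero_mul, Nat.le_zero] at h9
          exact h9
        rw [h8, mul_zero]
        exact Nat.zero_le _
      · calc A.card * bad₁.card ≤ T * (k * Z * T ^ (k - 1)) := Nat.mul_le_mul hA hb1
          _ = k * Z * (T ^ (k - 1) * T) := by ring
          _ = _ := by rw [← pow_succ, Nat.sub_add_cancel hk]
    refine (add_le_add h7 h6).trans (le_of_eq ?_)
    rw [Nat.add_sub_cancel]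
    ring

end Pool.Agent.R351.GD
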