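import Pool.Agent.R351.GD.P.Box
import Pool.Agent.R351.GD.P.Log
import Pool.Agent.R351.GD.P.Tup
import Pool.Agent.Y921.PW.Iwa

/-!
# `p`-adic logarithms of integers: growing degrees
-/

set_option autoImplicit false

open Module

namespace Pool.Agent.R351.GD

open Pool.Agent.Y916.Om Pool.Agent.Y921.PW

/-- the exponents -/
noncomputable def Evp (N : ℕ) : ℕ → ℕ := (logsp_exp N).choose

theorem Evp_pb (N : ℕ) : PB (Evp N) := (logsp_exp N).choose_spec.1

section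

variable {p : ℕ} [Fact p.Prime] {A : Type} [NormedField A] [NormedAlgebra ℚ_[p] A] [CharZero A]

theorem log_inp' : InpP Evp p (fun e v g (_ : Unit) => lval p A e v g) := by
  intro N Δ H e v hH hv hve g hg hgb P hP hP0
  have h1 := (logsp_exp N).choose_spec.2 Δ H p e v hH hv hve g hg hgb
  set en : Fin N × Unit ≃ Fin N := Equiv.prodPUnit (Fin N) with hen
  have h2 : MvPolynomial.rename en P = 0 := by
    refine h1 _ ((MvPolynomial.totalDegree_rename_le _ _).trans hP) ?_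
    rw [MvPolynomial.aeval_rename]
    refine (algebraMap ℚ_[p] A).injective ?_
    rw [map_zero, ← hP0]
    have h3 := MvPolynomial.aeval_algebraMap_apply (A := ℚ_[p]) A
      (fun x : Fin N × Unit => evp ((((p ^ e : ℕ) : ℚ) / v : ℚ) : ℚ_[p]) (lgp (g x.1))) P
    exact h3.symm
  exact MvPolynomial.rename_injective en en.injective (h2.trans (map_zero _).symm)

end

open Classical in
/-- boxes of integers prime to `p` -/
theorem pbox_exp (k q : ℕ) : ∃ E : ℕ → ℕ, PB E ∧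
    ∀ (δ p : ℕ) [Fact p.Prime] (A : Type) [NormedField A] [NormedAlgebra ℚ_[p] A] [CharZero A] (L : A → A), Iw p L →
    ∀ (υ : Type) [Fintype υ] (w : υ → A), Fintype.card υ = q → ∀ (H : ℕ) (e v : Fin k → ℕ),
    (∀ i, (H + 2) ^ E δ ≤ p ^ e i ∧ ¬ p ∣ v i ∧ v i ≤ p ^ e i) →
    ((Fintype.piFinset fun _ : Fin k => Finset.Icc 1 H).filter fun g =>
      BadW δ δ δ w (fun i => L ((v i + g i * p ^ e i : ℕ) : A))).card ≤ (k * (q + 1) + k.choose 2) * H ^ (k - 1) := by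
  obtain ⟨E, hEp, hE⟩ := box_exp Evp Evp_pb (σ := Unit) 1 1 1 k 1 q
  refine ⟨fun δ => E δ + 1, hEp.add (PB.const 1), fun δ p _ A _ _ _ L hL υ _ w hw H e v hev' => ?_⟩
  have hev : ∀ i, (H + 2) ^ (E δ + 1) ≤ p ^ e i ∧ ¬ p ∣ v i ∧ v i ≤ p ^ e i := hev'
  set I : Type := {q : ℕ × ℕ // 1 ≤ q.1 ∧ ¬ p ∣ q.2 ∧ q.2 ≤ p ^ q.1} with hI
  set size : I → ℕ := fun q => p ^ q.1.1 with hsize
  set val : I → ℕ → Unit → A := fun q g _ => lval p A q.1.1 q.1.2 g with hval
  set x : I → ℕ → Unit → A := fun q g _ => L ((q.1.2 + g * p ^ q.1.1 : ℕ) : A) with hx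
  have hinp : Inp Evp size val := fun N Δ H q h1 g hg hgb =>
    log_inp' (A := A) N Δ H q.1.1 q.1.2 h1 q.2.2.1 q.2.2.2 g hg hgb
  have hlink : LinkI 1 val x := fun q => log_link hL q.1.1 q.1.2 q.2.1 q.2.2.1 q.2.2.2
  have he1 : ∀ i, 1 ≤ e i := by
    intro i
    by_contra h0
    have h1 : e i = 0 := by omega
    have h3 := (hev i).1
    rw [h1, pow_zero] at h3
    have h2 : H + 2 ≤ (H + 2) ^ (E δ + 1) := Nat.le_self_pow (by omega) _
    omega
  set t : Fin k → I := fun i => ⟨(e i, v i), he1 i, (hev i).2.1, (hev i).2.2⟩ with ht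
  have h1 := hE δ A I size val x hinp hlink H t (fun i =>
    (Nat.pow_le_pow_right (by omega) (Nat.le_succ (E δ))).trans (hev i).1) υ w Finset.univ
    (by rw [Finset.card_univ, hw]) (Dom.univ w)
  rw [Fintype.card_unit, one_mul, one_mul] at h1
  refine (Finset.card_le_card fun g hg => ?_).trans h1
  obtain ⟨hg1, hg2⟩ := Finset.mem_filter.1 hg
  exact Finset.mem_filter.2 ⟨hg1, BadW.reindex (Equiv.prodPUnit (Fin k)) hg2⟩

/-- windows in residue classes -/
theorem pwin_exp (m q : ℕ) : ∃ E : ℕ → ℕ, PB E ∧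
    ∀ (δ p : ℕ) [Fact p.Prime] (A : Type) [NormedField A] [NormedAlgebra ℚ_[p] A] [CharZero A] (L : A → A), Iw p L →
    ∀ (w : Fin q → A) (H e v : ℕ), (H + 2) ^ E δ ≤ p ^ e → ¬ p ∣ v → v ≤ p ^ e → ∀ S : Finset ℕ,
    (∀ g ∈ S, 1 ≤ g ∧ g ≤ H ∧ BadW δ δ (m * δ) w (fun _ : Unit => L ((v + g * p ^ e : ℕ) : A))) → S.card ≤ q + 1 := by
  classical
  obtain ⟨E, hEp, hE⟩ := win2_exp Evp Evp_pb (σ := Unit) m q 1 1 1
  refine ⟨fun δ => E δ + 1, hEp.add (PB.const 1), fun δ p _ A _ _ _ L hL w H e v hHe'' hv hve S hS => ?_⟩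
  have hHe' : (H + 2) ^ (E δ + 1) ≤ p ^ e := hHe''
  have he1 : 1 ≤ e := by
    by_contra h0
    have h1 : e = 0 := by omega
    rw [h1, pow_zero] at hHe'
    have h2 : H + 2 ≤ (H + 2) ^ (E δ + 1) := Nat.le_self_pow (by omega) _
    omega
  have hHe : (H + 2) ^ E δ ≤ p ^ e := (Nat.pow_le_pow_right (by omega) (by omega)).trans hHe'
  set x : Unit → ℕ → Unit → A := fun _ g _ => L ((v + g * p ^ e : ℕ) : A) with hx
  have hinp : Inp Evp (fun _ : Unit => p ^ e) (fun (_ : Unit) g (_ : Unit) => lval p A e v g) :=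
    fun N Δ H' _ h1 g hg hgb => log_inp' (A := A) N Δ H' e v h1 hv hve g hg hgb
  have hlink : LinkI 1 (fun (_ : Unit) g (_ : Unit) => lval p A e v g) x := fun _ => log_link hL e v he1 hv hve
  obtain ⟨X, hX, hwin⟩ := hE δ A Unit (fun _ => p ^ e) _ x hinp hlink H () hHe (Fin q) w Finset.univ
    (by rw [Finset.card_univ, Fintype.card_fin]) (Dom.univ w)
  refine le_trans (Finset.card_le_card fun g hg => ?_) hX
  obtain ⟨hg1, hgH, hrel⟩ := hS g hg
  by_contra hcon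
  exact hwin g hg1 hgH hcon hrel

end Pool.Agent.R351.GD
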